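import Mathlib
import Pool.Agent.H525.EX.Stm6

/-!
# Project EX (helper525): conversion to the final identity for `u ^ 2 + t (u') ^ 2`
-/

namespace Pool.Agent.H50.EX

open Pool.Agent.H525.EX

/-- the local factor in terms of the divisors of `N = 4 a + 1` -/
theorem local_sum (hcd : S_cdiv) (κ g N : ℕ) (hN : N % 4 = 1) :
    ((((2 : ℝ) ^ κ) ^ (2 * g)) ^ ((N - 1) / 4) *
        Cc 1 (((2 : ℝ) ^ κ) ^ (2 * g))⁻¹ ((N - 1) / 4)) =
      ∑ d ∈ N.divisors, (jacobiSym (-1) d : ℝ) *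
        ((2 : ℝ) ^ κ) ^ (g * ((d - 1) * (N / d - 1) / 2)) := by
  have hb : 4 * ((N - 1) / 4) + 1 = N := by omega
  have h5 := (hcd 0 ((N - 1) / 4) (((2 : ℝ) ^ κ) ^ (2 * g)) (by positivity)).2
  rw [hb, pow_zero, pow_zero] at h5
  rw [← h5]
  refine Finset.sum_congr rfl (fun d hd => ?_)
  congr 1
  rw [Nat.mem_divisors] at hd
  obtain ⟨e, he⟩ := hd.1
  have hdo : Odd (d * e) := by
    rw [← he, Nat.odd_iff]; omega
  have hd1 : Odd d := (Nat.odd_mul.1 hdo).1
  have he1 : Odd e := (Nat.odd_mul.1 hdo).2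
  have hdd : N / d = e := by
    rw [he]; exact Nat.mul_div_cancel_left e hd1.pos
  rw [hdd, ← pow_mul]
  congr 1
  obtain ⟨x, hx⟩ := hd1
  obtain ⟨y, hy⟩ := he1
  have h7 : (d - 1) * (e - 1) = 4 * (x * y) := by
    rw [hx, hy, Nat.add_sub_cancel, Nat.add_sub_cancel]; ring
  have h8 : 4 * (x * y) = 2 * (2 * (x * y)) := by ring
  rw [h7, Nat.mul_div_cancel_left _ (by norm_num), h8, Nat.mul_div_cancel_left _ (by norm_num)]
  ring

theorem jac_even (κ n d : ℕ) (hd : Odd d) :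
    jacobiSym (-((2 : ℤ) ^ κ) ^ (2 * n)) d = jacobiSym (-1) d := by
  have h3 : (-((2 : ℤ) ^ κ) ^ (2 * n)) = (-1) * (((2 : ℤ) ^ κ) ^ n) ^ 2 := by ring
  have h4 : Int.gcd (((2 : ℤ) ^ κ) ^ n) d = 1 := by
    rw [← pow_mul, Int.gcd_eq_natAbs, Int.natAbs_pow, Int.natAbs_natCast]
    exact Nat.Coprime.pow_left _ (Nat.coprime_two_left.2 hd)
  rw [h3, jacobiSym.mul_left, jacobiSym.sq_one' h4, mul_one]

theorem jac_odd (κ n d : ℕ) (hd : Odd d) :
    jacobiSym (-((2 : ℤ) ^ κ) ^ (2 * n + 1)) d = jacobiSym (-(2 : ℤ) ^ κ) d := by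
  have h3 : (-((2 : ℤ) ^ κ) ^ (2 * n + 1)) = (-(2 : ℤ) ^ κ) * (((2 : ℤ) ^ κ) ^ n) ^ 2 := by ring
  have h4 : Int.gcd (((2 : ℤ) ^ κ) ^ n) d = 1 := by
    rw [← pow_mul, Int.gcd_eq_natAbs, Int.natAbs_pow, Int.natAbs_natCast]
    exact Nat.Coprime.pow_left _ (Nat.coprime_two_left.2 hd)
  rw [h3, jacobiSym.mul_left, jacobiSym.sq_one' h4, mul_one]

theorem t_cvu : Pool.Agent.H525.EX.S_cvu := by
  intro hcd κ p h3 h4 M hM
  rcases Nat.even_or_odd' M with ⟨n, rfl | rfl⟩
  · -- even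
    have hn : 1 ≤ n := by omega
    have h := h4 n hn
    have hL : ∑ m ∈ n.divisors, (if n / m % 4 = 1 then
        (p (2 * m) : ℝ) * (4 * m) * ((((2 : ℝ) ^ κ) ^ (4 * m)) ^ ((n / m - 1) / 4) *
          Cc 1 (((2 : ℝ) ^ κ) ^ (4 * m))⁻¹ ((n / m - 1) / 4)) else 0) =
        ∑ f ∈ (2 * n).divisors with 2 * n / f % 4 = 1, (2 * f : ℝ) * (p f : ℝ) *
          ∑ d ∈ (2 * n / f).divisors, (jacobiSym (-1) d : ℝ) *
            ((2 : ℝ) ^ κ) ^ (f * ((d - 1) * (2 * n / f / d - 1) / 2)) := by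
      rw [← Finset.sum_filter]
      refine Finset.sum_nbij' (fun m => 2 * m) (fun f => f / 2) ?_ ?_ ?_ ?_ ?_
      · intro m hm
        simp only [Finset.mem_filter, Nat.mem_divisors] at hm ⊢
        obtain ⟨⟨hmn, hn0⟩, hmod⟩ := hm
        refine ⟨⟨Nat.mul_dvd_mul_left 2 hmn, by omega⟩, ?_⟩
        rw [Nat.mul_div_mul_left _ _ (by norm_num : 0 < 2)]
        exact hmod
      · intro f hf
        simp only [Finset.mem_filter, Nat.mem_divisors] at hf ⊢
        obtain ⟨⟨⟨c, hc⟩, hn0⟩, hmod⟩ := hf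
        have hf0 : 0 < f := by
          rcases Nat.eq_zero_or_pos f with h0 | h0
          · rw [h0] at hc; omega
          · exact h0
        rw [hc, Nat.mul_div_cancel_left _ hf0] at hmod
        have hfe : f % 2 = 0 := by
          by_contra hne
          have h1 : Odd (f * c) := Odd.mul (Nat.odd_iff.2 (by omega)) (Nat.odd_iff.2 (by omega))
          rw [← hc] at h1
          exact (Nat.not_odd_iff_even.2 (even_two_mul n)) h1
        obtain ⟨g, hg⟩ : ∃ g, f = 2 * g := ⟨f / 2, by omega⟩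
        have hg2 : f / 2 = g := by omega
        have hnc : n = g * c := by
          rw [hg, mul_assoc] at hc
          omega
        have hg0 : 0 < g := by omega
        rw [hg2]
        refine ⟨⟨⟨c, hnc⟩, by omega⟩, ?_⟩
        rw [hnc, Nat.mul_div_cancel_left _ hg0]
        exact hmod
      · intro m _
        show 2 * m / 2 = m
        omega
      · intro f hf
        simp only [Finset.mem_filter, Nat.mem_divisors] at hf
        obtain ⟨⟨⟨c, hc⟩, hn0⟩, hmod⟩ := hf
        have hf0 : 0 < f := by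
          rcases Nat.eq_zero_or_pos f with h0 | h0
          · rw [h0] at hc; omega
          · exact h0
        rw [hc, Nat.mul_div_cancel_left _ hf0] at hmod
        have hfe : f % 2 = 0 := by
          by_contra hne
          have h1 : Odd (f * c) := Odd.mul (Nat.odd_iff.2 (by omega)) (Nat.odd_iff.2 (by omega))
          rw [← hc] at h1
          exact (Nat.not_odd_iff_even.2 (even_two_mul n)) h1
        show 2 * (f / 2) = f
        omega
      · intro m hm
        simp only [Finset.mem_filter, Nat.mem_divisors] at hm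
        obtain ⟨⟨hmn, hn0⟩, hmod⟩ := hm
        have e1 : 2 * n / (2 * m) = n / m := Nat.mul_div_mul_left _ _ (by norm_num)
        have h6 := local_sum hcd κ (2 * m) (n / m) hmod
        have e2 : 2 * (2 * m) = 4 * m := by ring
        rw [e2] at h6
        rw [e1, h6]
        push_cast
        ring
    have hR : ((2 : ℝ) ^ κ) ^ n * ∑ d ∈ n.divisors with d % 2 = 1, (jacobiSym (-1) d : ℝ) *
        ((2 : ℝ) ^ κ) ^ (n / d) = ∑ d ∈ (2 * n).divisors with d % 2 = 1,
        (jacobiSym (-((2 : ℤ) ^ κ) ^ (2 * n)) d : ℝ) *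
          ((2 : ℝ) ^ κ) ^ ((2 * n + 2 * n / d) / 2) := by
      rw [Finset.mul_sum]
      have hset : (n.divisors.filter fun d => d % 2 = 1) =
          (2 * n).divisors.filter fun d => d % 2 = 1 := by
        ext d
        simp only [Finset.mem_filter, Nat.mem_divisors]
        constructor
        · rintro ⟨⟨h1, h2⟩, h5⟩
          exact ⟨⟨h1.mul_left 2, by omega⟩, h5⟩
        · rintro ⟨⟨h1, h2⟩, h5⟩
          refine ⟨⟨?_, by omega⟩, h5⟩
          exact (Nat.Coprime.dvd_mul_left (Nat.coprime_two_right.2 (Nat.odd_iff.2 h5))).1 h1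
      rw [← hset]
      refine Finset.sum_congr rfl (fun d hd => ?_)
      simp only [Finset.mem_filter, Nat.mem_divisors] at hd
      obtain ⟨⟨⟨c, hc⟩, h2⟩, h5⟩ := hd
      have hd0 : 0 < d := by omega
      rw [jac_even κ n d (Nat.odd_iff.2 h5)]
      have e1 : n / d = c := by rw [hc]; exact Nat.mul_div_cancel_left c hd0
      have e2 : 2 * n / d = 2 * c := by
        rw [hc, show 2 * (d * c) = d * (2 * c) by ring]; exact Nat.mul_div_cancel_left _ hd0
      have e3 : (2 * n + 2 * c) / 2 = n + c := by omega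
      rw [e1, e2, e3, pow_add]
      ring
    have hC : (if Odd κ ∧ Odd n then 2 * ((2 : ℝ) ^ κ) ^ n *
        ∑ c ∈ n.divisors, (jacobiSym (-1) (n / c) : ℝ) else 0) =
        (if Odd κ ∧ 2 * n % 4 = 2 then 2 * ((2 : ℝ) ^ κ) ^ (2 * n / 2) *
          ∑ c ∈ (2 * n / 2).divisors, (jacobiSym (-1) c : ℝ) else 0) := by
      have e1 : 2 * n / 2 = n := by omega
      have e2 : Odd n ↔ 2 * n % 4 = 2 := by rw [Nat.odd_iff]; omega
      rw [e1]
      have e3 := Nat.sum_div_divisors n (fun c => (jacobiSym (-1) c : ℝ))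
      simp only [e2]
      rw [e3]
    rw [hL, hR, hC] at h
    unfold IdU
    have h' : ((∑ f ∈ (2 * n).divisors with 2 * n / f % 4 = 1, (2 * f : ℤ) * (p f : ℤ) *
      ∑ d ∈ (2 * n / f).divisors, jacobiSym (-1) d *
        ((2 : ℤ) ^ κ) ^ (f * ((d - 1) * (2 * n / f / d - 1) / 2)) : ℤ) : ℝ) =
      (((∑ d ∈ (2 * n).divisors with d % 2 = 1, jacobiSym (-((2 : ℤ) ^ κ) ^ (2 * n)) d *
      ((2 : ℤ) ^ κ) ^ ((2 * n + 2 * n / d) / 2)) -
      (if Odd κ ∧ 2 * n % 4 = 2 then 2 * ((2 : ℤ) ^ κ) ^ (2 * n / 2) *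
        ∑ c ∈ (2 * n / 2).divisors, jacobiSym (-1) c
      else 0) : ℤ) : ℝ) := by
      push_cast
      linarith
    exact_mod_cast h'
  · -- odd
    have h := h3 n
    have hL : ∑ m ∈ Finset.range (n + 1),
        (if (2 * m + 1) ∣ (2 * n + 1) ∧ (2 * n + 1) / (2 * m + 1) % 4 = 1 then
          (p (2 * m + 1) : ℝ) * (4 * m + 2) * ((((2 : ℝ) ^ κ) ^ (4 * m + 2)) ^
              (((2 * n + 1) / (2 * m + 1) - 1) / 4) *
            Cc 1 (((2 : ℝ) ^ κ) ^ (4 * m + 2))⁻¹ (((2 * n + 1) / (2 * m + 1) - 1) / 4)) else 0) =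
        ∑ f ∈ (2 * n + 1).divisors with (2 * n + 1) / f % 4 = 1, (2 * f : ℝ) * (p f : ℝ) *
          ∑ d ∈ ((2 * n + 1) / f).divisors, (jacobiSym (-1) d : ℝ) *
            ((2 : ℝ) ^ κ) ^ (f * ((d - 1) * ((2 * n + 1) / f / d - 1) / 2)) := by
      rw [← Finset.sum_filter]
      refine Finset.sum_nbij' (fun m => 2 * m + 1) (fun f => f / 2) ?_ ?_ ?_ ?_ ?_
      · intro m hm
        simp only [Finset.mem_filter, Finset.mem_range, Nat.mem_divisors] at hm ⊢
        exact ⟨⟨hm.2.1, by omega⟩, hm.2.2⟩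
      · intro f hf
        simp only [Finset.mem_filter, Finset.mem_range, Nat.mem_divisors] at hf ⊢
        have h1 : f % 2 = 1 := by
          obtain ⟨c, hc⟩ := hf.1.1
          have h2 : Odd (f * c) := by rw [← hc]; exact odd_two_mul_add_one n
          exact Nat.odd_iff.1 (Nat.odd_mul.1 h2).1
        have h2 : 2 * (f / 2) + 1 = f := by omega
        have h5 := Nat.le_of_dvd (by omega) hf.1.1
        rw [h2]
        exact ⟨by omega, hf.1.1, hf.2⟩
      · intro m _
        show (2 * m + 1) / 2 = m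
        omega
      · intro f hf
        simp only [Finset.mem_filter, Nat.mem_divisors] at hf
        have h1 : f % 2 = 1 := by
          obtain ⟨c, hc⟩ := hf.1.1
          have h2 : Odd (f * c) := by rw [← hc]; exact odd_two_mul_add_one n
          exact Nat.odd_iff.1 (Nat.odd_mul.1 h2).1
        show 2 * (f / 2) + 1 = f
        omega
      · intro m hm
        simp only [Finset.mem_filter, Finset.mem_range] at hm
        have h6 := local_sum hcd κ (2 * m + 1) ((2 * n + 1) / (2 * m + 1)) hm.2.2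
        have e2 : 2 * (2 * m + 1) = 4 * m + 2 := by ring
        rw [e2] at h6
        rw [h6]
        push_cast
        ring
    have hR : ((2 : ℝ) ^ κ) ^ (n + 1) * ∑ d ∈ (2 * n + 1).divisors,
        (jacobiSym (-(2 : ℤ) ^ κ) d : ℝ) * ((2 : ℝ) ^ κ) ^ (((2 * n + 1) / d - 1) / 2) =
        ∑ d ∈ (2 * n + 1).divisors with d % 2 = 1,
        (jacobiSym (-((2 : ℤ) ^ κ) ^ (2 * n + 1)) d : ℝ) *
          ((2 : ℝ) ^ κ) ^ ((2 * n + 1 + (2 * n + 1) / d) / 2) := by
      rw [Finset.mul_sum]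
      have hset : ((2 * n + 1).divisors.filter fun d => d % 2 = 1) = (2 * n + 1).divisors := by
        refine Finset.filter_true_of_mem (fun d hd => ?_)
        rw [Nat.mem_divisors] at hd
        obtain ⟨c, hc⟩ := hd.1
        have h2 : Odd (d * c) := by rw [← hc]; exact odd_two_mul_add_one n
        exact Nat.odd_iff.1 (Nat.odd_mul.1 h2).1
      rw [hset]
      refine Finset.sum_congr rfl (fun d hd => ?_)
      rw [Nat.mem_divisors] at hd
      obtain ⟨c, hc⟩ := hd.1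
      have h2 : Odd (d * c) := by rw [← hc]; exact odd_two_mul_add_one n
      have hd1 := (Nat.odd_mul.1 h2).1
      have hc1 := Nat.odd_iff.1 (Nat.odd_mul.1 h2).2
      rw [jac_odd κ n d hd1]
      have e1 : (2 * n + 1) / d = c := by rw [hc]; exact Nat.mul_div_cancel_left c hd1.pos
      have e3 : (2 * n + 1 + c) / 2 = (n + 1) + (c - 1) / 2 := by omega
      rw [e1, e3, pow_add]
      ring
    rw [hL, hR] at h
    unfold IdU
    have hmod : ¬ (2 * n + 1) % 4 = 2 := by omega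
    have h' : ((∑ f ∈ (2 * n + 1).divisors with (2 * n + 1) / f % 4 = 1,
      (2 * f : ℤ) * (p f : ℤ) * ∑ d ∈ ((2 * n + 1) / f).divisors, jacobiSym (-1) d *
        ((2 : ℤ) ^ κ) ^ (f * ((d - 1) * ((2 * n + 1) / f / d - 1) / 2)) : ℤ) : ℝ) =
      (((∑ d ∈ (2 * n + 1).divisors with d % 2 = 1,
        jacobiSym (-((2 : ℤ) ^ κ) ^ (2 * n + 1)) d *
          ((2 : ℤ) ^ κ) ^ ((2 * n + 1 + (2 * n + 1) / d) / 2)) : ℤ) : ℝ) := by
      push_cast
      linarith
    rw [if_neg (fun hh => hmod hh.2), sub_zero]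
    exact_mod_cast h'

end Pool.Agent.H50.EX

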